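import Pool.Agent.H940.F.Steps

/-!
# The local motivic monodromy conjecture for forms with locally weighted homogeneous isolated
singularities

We prove Q1 for the forms of degree `d ≥ 3` in the following class, and for the germs of a class which they
generate.

`LH` is the class of the forms `f` in `x_0, …, x_n` such that the hypersurface `{f = 0}` in the projective
space has only isolated singularities, and each of them is weighted homogeneous: after a formal change
of coordinates and up to a unit the germ is a weighted homogeneous polynomial with an isolated critical
point (all weights positive). There is no hypothesis on `-(n + 1)/d`, and there are forms in the class for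
which it is not a root of the Bernstein-Sato polynomial (for example `x ^ (d - 1) y + z ^ d`, `d ≥ 4`).
Examples: all reduced plane curves with singularities of type `A`, `D`, `E`, `x ^ a = y ^ b`, and so on (`n =
2`), for instance all reduced arrangements of lines, and of lines and conics with quasi-homogeneous
singularities; all surfaces in the projective three-space with rational double points, and so on in all
dimensions; all smooth hypersurfaces.

The class `Germ` is the smallest class of germs at the origin of tuples of polynomials (ideals) which
contains the forms of degree `≥ 3` in `LH`, the weighted homogeneous polynomials with an isolated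
critical point, and the class `Tower` of the library, and which is closed under: relative cones whose
germs outside of the vertex are in the class (if the expected root is one), sums (for `Germ true`) and
products of ideals in disjoint sets of variables, hypersurfaces `∑ y_j f_j(x) = 0`, and formal changes of
coordinates, units and smooth factors.

**Method.** (1) The Jacobian ideal of a form `f` in `LH` is of linear type (`lty`), so the annihilator of `f ^ s`
is generated by operators of order one, up to what is needed for the following: if `b(s) f ^ s = P(s) f ^ (s
+ 1)` near the origin, then `b(-(n + 1)/d) = 0`, or there is a vector field which kills `f` and has a non-zero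
divergence at the origin (`root_or_field`). (2) In the second case the semisimple part of the linear part of
the field gives a second one-parameter group of linear maps, with weights `w_i`, `∑ w_i ≠ 0`, which
fixes `f`. New here (`crit_max`, `lt_max`, `pair_of`, `sf_or_pair`): for `d ≥ 3` and the right sign of the
weights all points of the eigenspace of the largest weight `w_(i₀)` are critical; the singular lines are
isolated, so the eigenspace is a line, the germ of `f` at this singular line is weighted homogeneous in LINEAR
coordinates for the positive weights `a_j = w_(i₀) - w_j` and the degree `e = d w_(i₀)`, and `-(∑ a_j)/e` is the root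
which belongs to this singular point. (3) The motivic volumes of the arcs on which `f` has the order `≥ N`
satisfy a recursion for the group with the weights `a_j` (`a_(i₀) = 0` is allowed), with the denominator
`1 - 𝕃 ^ (-∑ a_j) T ^ e` only (`univ_second`). So in both cases all denominators are roots, and the zeta
function is in the ring for one finite set of pairs. The error terms come from arcs with origin outside of
`0`: near the singular lines these are the volumes for the weighted homogeneous germs, and away from
them the order of the gradient of `f` is bounded, so that the volumes form a geometric series (`stable`).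
(4) With this the forms in `LH` are admissible germs in the constructions of the library (cones, sums,
products, hypersurfaces, formal coordinates).
-/

set_option autoImplicit false

namespace Pool.Agent.Results.MP_9321be_ag.FormsLocallyWH

open MvPolynomial Pool.Agent.H940.G Pool.Agent.H940.F
open Pool.Agent.W428.MOT (ratRing)
open Pool.Agent.TH192.MT (zetaO)
open Pool.Agent.H628R4.TP (IsLocalBFunction)

/-- **Q1 for forms with only weighted homogeneous isolated projective singularities, and for the germs which
they generate.**

First part: `f ≠ 0` is a form of degree `d ≥ 3` in `n + 1` variables, and for every singular point of the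
projective hypersurface, with the coordinates `x_i = 1` and `q` (all partial derivatives of `f` vanish
there), the germ `germAt i q f` of the dehomogenized form is weighted homogeneous with an isolated critical
point in suitable formal coordinates (`WHG`). Second part: `F` is a germ of the class `Germ false`. In both
cases there is a finite set `S` of pairs `(a, b)` with `a < 0 < b` such that the local motivic zeta function
at the origin is in the subring of `𝓜⟦T⟧` generated over `𝓜` by `T` and the `1 / (1 - 𝕃 ^ a T ^ b)`,
`(a, b) ∈ S`, and `a / b` is a root of every `b'` with `b'(s) F ^ s = P(s) F ^ (s + 1)`, where `P(s)` is a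
differential operator with formal power series coefficients, polynomial in `s` (for instance the local
Bernstein-Sato polynomial of `F`). By the theorem of Malgrange and Kashiwara `exp(2πi a / b)` is then a
monodromy eigenvalue of `F` at points arbitrarily near to the origin. -/
theorem result :
    (∀ {n : ℕ} (f : MvPolynomial (Fin (n + 1)) ℂ), f ≠ 0 → ∀ d : ℕ, 3 ≤ d → f.IsHomogeneous d →
      (∀ (i : Fin (n + 1)) (q : Fin n → ℂ), (∀ j, eval (i.insertNth 1 q) (pderiv j f) = 0) →
        ∃ (g : MvPolynomial (Fin n) ℂ) (w : Fin n → ℕ) (N : ℕ)
          (η : Fin n → MvPowerSeries (Fin n) ℂ), WHG (germAt i q f) g w N η) →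
      ∃ S : Finset (ℤ × ℤ), (∀ q ∈ S, q.1 < 0 ∧ 0 < q.2 ∧
        ∀ b : Polynomial ℂ, IsLocalBFunction f b → b.eval ((q.1 : ℂ) / q.2) = 0) ∧
        zetaO f ∈ ratRing ℂ (S : Set (ℤ × ℤ))) ∧
    ∀ {n : ℕ} (F : MvPolynomial (Fin n) ℂ), Germ false n 1 (fun _ => F) →
      ∃ S : Finset (ℤ × ℤ), (∀ q ∈ S, q.1 < 0 ∧ 0 < q.2 ∧
        ∀ b : Polynomial ℂ, IsLocalBFunction F b → b.eval ((q.1 : ℂ) / q.2) = 0) ∧
        zetaO F ∈ ratRing ℂ (S : Set (ℤ × ℤ)) := by
  have key : ∀ {n : ℕ} (F : MvPolynomial (Fin n) ℂ), Germ false n 1 (fun _ => F) →
      ∃ S : Finset (ℤ × ℤ), (∀ q ∈ S, q.1 < 0 ∧ 0 < q.2 ∧
        ∀ b : Polynomial ℂ, IsLocalBFunction F b → b.eval ((q.1 : ℂ) / q.2) = 0) ∧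
        zetaO F ∈ ratRing ℂ (S : Set (ℤ × ℤ)) := by
    intro n F hF
    obtain ⟨-, S, hS, hz⟩ := germ_main hF
    rw [Pool.Agent.Q57.MC.zetaJ_one] at hz
    exact ⟨S, fun q hq => ⟨(hS q hq).1, (hS q hq).2.1, fun b hb =>
      (hS q hq).2.2 b (Pool.Agent.Q57.MC.localBI_one F b hb)⟩, hz⟩
  exact ⟨fun f hf0 d hd hf H => key f (.weak _ (.form f d hd hf hf0 H)), key⟩

end Pool.Agent.Results.MP_9321be_ag.FormsLocallyWH
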